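import Pool.Agent.W147.LF.Stm

set_option autoImplicit false

open Polynomial Pool.Agent.W147.LF

namespace Pool.Agent.W452.LF

noncomputable section

/-- power of the resultant -/
def J {K : Type} [Field K] [Fintype K] (a b : K[X]) : AlgebraicClosure K := (R a b) ^ hq K

/-- sign -/
def sg (K : Type) [Field K] [Fintype K] (i j : ℕ) : AlgebraicClosure K :=
  ((-1 : AlgebraicClosure K) ^ (i * j)) ^ hq K

lemma hq_two (K : Type) [Fintype K] (h : Odd (Fintype.card K)) :
    hq K + hq K + 1 = Fintype.card K := by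
  unfold hq
  obtain ⟨n, hn⟩ := h
  omega

lemma J_sq {K : Type} [Field K] [Fintype K] (hne : S_Rne) (hfr : S_Rfrob)
    (hodd : Odd (Fintype.card K)) (a b : K[X]) (ha : a ≠ 0) (h : IsCoprime a b) :
    J a b * J a b = 1 := by
  have h0 : R a b ≠ 0 := (hne K a b ha).2 h
  have h1 := hfr K a b
  rw [← hq_two K hodd, pow_succ, pow_add] at h1
  unfold J
  exact mul_right_cancel₀ h0 (by rw [h1, one_mul])

lemma J_ne {K : Type} [Field K] [Fintype K] (hne : S_Rne)
    (a b : K[X]) (ha : a ≠ 0) (h : IsCoprime a b) : J a b ≠ 0 :=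
  pow_ne_zero _ ((hne K a b ha).2 h)

lemma J_mulR {K : Type} [Field K] [Fintype K] (hmR : S_RmulR) (a b c : K[X]) :
    J a (b * c) = J a b * J a c := by
  unfold J
  rw [hmR, mul_pow]

lemma J_congr {K : Type} [Field K] [Fintype K] (hc : S_Rcongr) (a b c : K[X]) (h : a ∣ b - c) :
    J a b = J a c := by
  unfold J
  rw [hc K a b c h]

lemma J_swap {K : Type} [Field K] [Fintype K] (hsw : S_Rswap) (a b : K[X]) (ha : a.Monic)
    (hb : b.Monic) : J a b = sg K a.natDegree b.natDegree * J b a := by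
  unfold J sg
  rw [hsw K a b ha hb, mul_pow]

lemma sg_ne (K : Type) [Field K] [Fintype K] (i j : ℕ) : sg K i j ≠ 0 := by
  unfold sg
  exact pow_ne_zero _ (pow_ne_zero _ (by norm_num))

lemma Om_mul {K : Type} [Field K] (a b : K[X]) (ha : a ≠ 0) (hb : b ≠ 0) :
    Om (a * b) = Om a + Om b := by
  unfold Om
  have h := UniqueFactorizationMonoid.factors_mul ha hb
  have h2 := Multiset.card_eq_card_of_rel h
  rw [h2, Multiset.card_add]

theorem t_Key (hmL : S_RmulL) (hmR : S_RmulR) (hc : S_Rcongr) (hsw : S_Rswap) (hne : S_Rne)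
    (hfr : S_Rfrob) (hRC : S_RC) (hP : S_Pel) : S_Key := by
  intro K _ _ hodd s V N Qt f m a1 d y1 k e hk hN hQt hf hfi hfN hQtN hVH ham hm ha1N hmN hyd hd
    hy1N hdN hWe hse he
  have h2 : (2 : K) ≠ 0 := by
    apply Ring.two_ne_zero
    intro h
    have := (FiniteField.even_card_iff_char_two (F := K)).1 h
    obtain ⟨r, hr⟩ := hodd
    omega
  obtain ⟨m', hm'⟩ := hmN
  obtain ⟨d', hd'⟩ := hdN
  have hNk : N ∣ N ^ k := dvd_pow_self N (by omega)
  have hmNk : m ∣ N ^ k := ⟨m', hm'⟩
  have hdNk : d ∣ N ^ k := ⟨d', hd'⟩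
  -- coprimality of fixed data
  have cma : IsCoprime m a1 :=
    (IsCoprime.of_isCoprime_of_dvd_right (IsCoprime.pow_right ha1N) hmNk).symm
  have cda : IsCoprime d a1 :=
    (IsCoprime.of_isCoprime_of_dvd_right (IsCoprime.pow_right ha1N) hdNk).symm
  have cmy : IsCoprime m y1 :=
    (IsCoprime.of_isCoprime_of_dvd_right (IsCoprime.pow_right hy1N) hmNk).symm
  have cQy : IsCoprime Qt y1 := (IsCoprime.of_isCoprime_of_dvd_right hy1N hQtN).symm
  have cfd : IsCoprime f d := IsCoprime.of_isCoprime_of_dvd_right (IsCoprime.pow_right hfN) hdNk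
  set n : ℕ := 4 * e - m.natDegree with hn
  set nP : ℕ := e - d.natDegree with hnP
  refine ⟨(-1) ^ Om m * (-1) ^ n * (((-1) ^ (n * (n - 1) / 2)) ^ hq K) *
    ((sg K n m.natDegree * J m a1) * ((algebraMap K (AlgebraicClosure K) 2) ^ n) ^ hq K *
      (sg K n d.natDegree * J d a1) *
      (sg K n nP * ((sg K nP m.natDegree * J m y1) * (sg K nP f.natDegree * J f d) *
        (sg K nP Qt.natDegree * J Qt y1)))), ?_, ?_⟩
  · have e1 : (-1 : AlgebraicClosure K) ≠ 0 := by norm_num
    have e2 : (algebraMap K (AlgebraicClosure K) 2) ≠ 0 := by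
      simpa using (map_ne_zero (algebraMap K (AlgebraicClosure K))).2 h2
    have := sg_ne K
    have f1 := J_ne hne m a1 hm.ne_zero cma
    have f2 := J_ne hne d a1 hd.ne_zero cda
    have f3 := J_ne hne m y1 hm.ne_zero cmy
    have f4 := J_ne hne f d hf.ne_zero cfd
    have f5 := J_ne hne Qt y1 hQt.ne_zero cQy
    refine mul_ne_zero (mul_ne_zero (mul_ne_zero (pow_ne_zero _ e1) (pow_ne_zero _ e1))
      (pow_ne_zero _ (pow_ne_zero _ e1))) ?_
    refine mul_ne_zero (mul_ne_zero (mul_ne_zero (mul_ne_zero (this _ _) f1)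
      (pow_ne_zero _ (pow_ne_zero _ e2))) (mul_ne_zero (this _ _) f2)) ?_
    exact mul_ne_zero (this _ _) (mul_ne_zero (mul_ne_zero (mul_ne_zero (this _ _) f3)
      (mul_ne_zero (this _ _) f4)) (mul_ne_zero (this _ _) f5))
  intro E c hc0 hE hEe hE' hNE hfE
  obtain ⟨w, hw⟩ := hNE
  obtain ⟨E1, hE1d⟩ : ∃ E1, E1 = N ^ k * (m' * w) := ⟨_, rfl⟩
  obtain ⟨E2, hE2d⟩ : ∃ E2, E2 = N ^ k * (d' * w) := ⟨_, rfl⟩
  have hE1 : E = m * E1 := by
    rw [hw, hE1d, two_mul, pow_add]
    calc N ^ k * N ^ k * w = (m * m') * N ^ k * w := by rw [← hm']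
      _ = m * (N ^ k * (m' * w)) := by ring
  have hE2 : E = d * E2 := by
    rw [hw, hE2d, two_mul, pow_add]
    calc N ^ k * N ^ k * w = (d * d') * N ^ k * w := by rw [← hd']
      _ = d * (N ^ k * (d' * w)) := by ring
  have hkE1 : N ^ k ∣ E1 := ⟨_, hE1d⟩
  have hkE2 : N ^ k ∣ E2 := ⟨_, hE2d⟩
  obtain ⟨u1, hu1⟩ : ∃ u1, u1 = a1 + E1 * (2 * X + E + E ^ 3) := ⟨_, rfl⟩
  obtain ⟨P1, hP1⟩ : ∃ P1, P1 = y1 + E2 := ⟨_, rfl⟩
  obtain ⟨u, hu⟩ : ∃ u, u = (X + E) ^ 2 + E ^ 4 + V ^ Fintype.card K + s := ⟨_, rfl⟩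
  have hum : u = m * u1 := by
    calc u = (X ^ 2 + V ^ Fintype.card K + s) + E * (2 * X + E + E ^ 3) := by rw [hu]; ring
      _ = m * a1 + (m * E1) * (2 * X + E + E ^ 3) := by rw [ham, ← hE1]
      _ = m * u1 := by rw [hu1]; ring
  have hPd : Y s + E = d * P1 := by
    calc Y s + E = d * y1 + d * E2 := by rw [hyd, ← hE2]
      _ = d * P1 := by rw [hP1]; ring
  have cu1N : IsCoprime u1 N := by
    obtain ⟨g, hg⟩ := hNk.trans hkE1
    have := IsCoprime.add_mul_left_left ha1N (g * (2 * X + E + E ^ 3))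
    rw [hu1, hg, mul_assoc]
    exact this
  have cP1N : IsCoprime P1 N := by
    obtain ⟨g, hg⟩ := hNk.trans hkE2
    have := IsCoprime.add_mul_left_left hy1N g
    rw [hP1, hg]
    exact this
  -- degrees
  have hXE : (X + E).natDegree ≤ e := by
    refine natDegree_add_le_of_degree_le ?_ hEe.le
    rw [natDegree_X]; omega
  have hrest : ((X + E) ^ 2 + V ^ Fintype.card K + s).natDegree ≤ 2 * e := by
    refine natDegree_add_le_of_degree_le (natDegree_add_le_of_degree_le ?_ (by omega)) (by omega)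
    exact natDegree_pow_le.trans (Nat.mul_le_mul_left 2 hXE)
  have hE4 : (E ^ 4).Monic := hE.pow 4
  have hE4d : (E ^ 4).natDegree = 4 * e := by rw [hE.natDegree_pow, hEe]
  have hu' : u = E ^ 4 + ((X + E) ^ 2 + V ^ Fintype.card K + s) := by rw [hu]; ring
  have huM : u.Monic := by
    rw [hu']
    exact hE4.add_of_left (degree_lt_degree (by omega))
  have hud : u.natDegree = 4 * e := by
    rw [hu', natDegree_add_eq_left_of_natDegree_lt (by omega), hE4d]
  have hu1M : u1.Monic := Monic.of_mul_monic_left hm (by rw [← hum]; exact huM)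
  have hu1d : u1.natDegree = n := by
    have := hm.natDegree_mul hu1M
    rw [← hum, hud] at this
    omega
  have hYd : (Y s).natDegree < e := by
    have : (Y s).natDegree ≤ e - 1 := by
      unfold Y
      refine natDegree_add_le_of_degree_le (by rw [natDegree_X]; omega) ?_
      refine (natDegree_C_mul_le _ _).trans ((natDegree_derivative_le s).trans ?_)
      omega
    omega
  have hPM : (Y s + E).Monic := by
    rw [add_comm]
    exact hE.add_of_left (degree_lt_degree (by omega))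
  have hPdeg : (Y s + E).natDegree = e := by
    rw [add_comm, natDegree_add_eq_left_of_natDegree_lt (by omega), hEe]
  have hP1M : P1.Monic := Monic.of_mul_monic_left hd (by rw [← hPd]; exact hPM)
  have hP1d : P1.natDegree = nP := by
    have := hd.natDegree_mul hP1M
    rw [← hPd, hPdeg] at this
    omega
  -- derivative
  have hC2 : (C (2 : K) : K[X]) = 2 := map_ofNat (C : K →+* K[X]) 2
  have h22 : (2 : K[X]) * C (2⁻¹ : K) = 1 := by
    rw [← hC2, ← C_mul, mul_inv_cancel₀ h2, C_1]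
  have hW' : derivative (V ^ Fintype.card K) = 0 := by
    rw [derivative_pow, FiniteField.cast_card_eq_zero]
    simp
  have hder : derivative u = C 2 * (Y s + E) := by
    have e1 : derivative u = 2 * (X + E) + derivative s := by
      rw [hu]
      simp only [derivative_add, hW', derivative_pow, derivative_X, hE']
      simp
      exact Or.inl hC2
    rw [e1, hC2]
    unfold Y
    have : (2 : K[X]) * (X + C (2⁻¹ : K) * derivative s + E)
        = 2 * (X + E) + (2 * C (2⁻¹ : K)) * derivative s := by ring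
    rw [this, h22, one_mul]
  have hder2 : derivative u = derivative m * u1 + m * derivative u1 := by
    rw [hum, derivative_mul]
  have hsub : u - (V ^ Fintype.card K + H s) = (Y s + E) *
      ((X + E - C (2⁻¹ : K) * derivative s) + (E - Y s) * (E ^ 2 + (Y s) ^ 2)) := by
    rw [hu]
    unfold H
    obtain ⟨t, ht⟩ : ∃ t, t = C (2⁻¹ : K) * derivative s := ⟨_, rfl⟩
    have hYt : Y s = X + t := by rw [ht]; rfl
    rw [← ht, hYt]
    ring
  -- squarefree
  have hsep : IsCoprime u1 (derivative u1) := by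
    apply isCoprime_of_irreducible_dvd
    · rintro ⟨h, -⟩
      exact hu1M.ne_zero h
    · intro g hg hg1 hg2
      have g1 : g ∣ derivative u := by
        rw [hder2]
        exact dvd_add (hg1.mul_left _) (hg2.mul_left _)
      have g2 : g ∣ Y s + E := by
        rw [hder] at g1
        have hunit : IsUnit (C (2 : K)) := isUnit_C.2 (isUnit_iff_ne_zero.2 h2)
        exact (hunit.dvd_mul_left).1 g1
      have g3 : g ∣ f * Qt := by
        rw [← hVH]
        have h4 : g ∣ u := by rw [hum]; exact hg1.mul_left _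
        have h5 : g ∣ u - (V ^ Fintype.card K + H s) := by
          rw [hsub]; exact g2.mul_right _
        have := dvd_sub h4 h5
        simpa using this
      rcases hg.prime.dvd_or_dvd g3 with h6 | h6
      · have h7 : Associated g f := (hg.dvd_irreducible_iff_associated hfi).1 h6
        have h8 : f ∣ Y s + E := h7.symm.dvd.trans g2
        have h9 : f ∣ C c := by
          have := dvd_sub h8 hfE
          simpa using this
        exact hfi.not_isUnit (isUnit_of_dvd_unit h9 (isUnit_C.2 (isUnit_iff_ne_zero.2 hc0)))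
      · have h7 : g ∣ N := h6.trans hQtN
        exact hg.not_isUnit (cu1N.isUnit_of_dvd' hg1 h7)
  have hsqf : Squarefree u1 := (show u1.Separable from hsep).squarefree
  -- the identities for J
  have cu1m : IsCoprime u1 m := IsCoprime.of_isCoprime_of_dvd_right (IsCoprime.pow_right cu1N) hmNk
  have cP1m : IsCoprime P1 m := IsCoprime.of_isCoprime_of_dvd_right (IsCoprime.pow_right cP1N) hmNk
  have q1 : J u1 m * J u1 m = 1 := J_sq hne hfr hodd _ _ hu1M.ne_zero cu1m
  have q2 : J P1 m * J P1 m = 1 := J_sq hne hfr hodd _ _ hP1M.ne_zero cP1m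
  have q3 : J f d * J f d = 1 := J_sq hne hfr hodd _ _ hf.ne_zero cfd
  have r1 : J u1 m * J u1 (derivative u1) = J u1 (C 2) * (J u1 d * J u1 P1) := by
    rw [← J_mulR hmR, ← J_mulR hmR, ← J_mulR hmR, ← hPd, ← hder]
    apply J_congr hc
    rw [hder2]
    exact ⟨-derivative m, by ring⟩
  have r2 : J P1 m * J P1 u1 = J P1 f * J P1 Qt := by
    rw [← J_mulR hmR, ← J_mulR hmR, ← hum, ← hVH]
    apply J_congr hc
    rw [hsub, hPd]
    exact (Dvd.intro_left d rfl).mul_right _
  have r3 : J f d * J f P1 = (algebraMap K (AlgebraicClosure K) c) ^ (hq K * f.natDegree) := by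
    rw [← J_mulR hmR, ← hPd, J_congr hc _ _ _ hfE]
    unfold J
    rw [hRC, ← pow_mul, mul_comm]
  have r4 : J u1 (C 2) = ((algebraMap K (AlgebraicClosure K) 2) ^ n) ^ hq K := by
    unfold J
    rw [hRC, hu1d]
  have s1 : J u1 m = sg K n m.natDegree * J m a1 := by
    rw [J_swap hsw _ _ hu1M hm, hu1d]
    congr 1
    apply J_congr hc
    rw [hu1]
    have : a1 + E1 * (2 * X + E + E ^ 3) - a1 = E1 * (2 * X + E + E ^ 3) := by ring
    rw [this]
    exact (hmNk.trans hkE1).mul_right _
  have s2 : J u1 d = sg K n d.natDegree * J d a1 := by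
    rw [J_swap hsw _ _ hu1M hd, hu1d]
    congr 1
    apply J_congr hc
    rw [hu1]
    have : a1 + E1 * (2 * X + E + E ^ 3) - a1 = E1 * (2 * X + E + E ^ 3) := by ring
    rw [this]
    exact (hdNk.trans hkE1).mul_right _
  have s3 : J u1 P1 = sg K n nP * J P1 u1 := by
    rw [J_swap hsw _ _ hu1M hP1M, hu1d, hP1d]
  have s4 : J P1 m = sg K nP m.natDegree * J m y1 := by
    rw [J_swap hsw _ _ hP1M hm, hP1d]
    congr 1
    apply J_congr hc
    rw [hP1]
    have : y1 + E2 - y1 = E2 := by ring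
    rw [this]
    exact hmNk.trans hkE2
  have s5 : J P1 Qt = sg K nP Qt.natDegree * J Qt y1 := by
    rw [J_swap hsw _ _ hP1M hQt, hP1d]
    congr 1
    apply J_congr hc
    rw [hP1]
    have : y1 + E2 - y1 = E2 := by ring
    rw [this]
    exact (hQtN.trans hNk).trans hkE2
  have s6 : J P1 f = sg K nP f.natDegree * J f P1 := by
    rw [J_swap hsw _ _ hP1M hf, hP1d]
  have pel := hP K hodd u1 hu1M hsqf
  rw [hu1d] at pel
  have hOm : Om u = Om m + Om u1 := by rw [hum]; exact Om_mul _ _ hm.ne_zero hu1M.ne_zero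
  rw [← hu, hOm, pow_add]
  -- solve
  have j0 : J u1 (derivative u1) = J u1 m * (J u1 (C 2) * (J u1 d * J u1 P1)) := by
    rw [← r1, ← mul_assoc, q1, one_mul]
  have jB : J P1 u1 = J P1 m * (J P1 f * J P1 Qt) := by
    rw [← r2, ← mul_assoc, q2, one_mul]
  have jf : J f P1 = J f d * (algebraMap K (AlgebraicClosure K) c) ^ (hq K * f.natDegree) := by
    rw [← r3, ← mul_assoc, q3, one_mul]
  have hsgn : (((-1 : AlgebraicClosure K) ^ (n * (n - 1) / 2)) ^ hq K) *
      (((-1 : AlgebraicClosure K) ^ (n * (n - 1) / 2)) ^ hq K) = 1 := by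
    rw [← mul_pow, ← mul_pow]; simp
  have hsgn2 : (-1 : AlgebraicClosure K) ^ n * (-1 : AlgebraicClosure K) ^ n = 1 := by
    rw [← mul_pow]; simp
  have pel2 : (-1 : AlgebraicClosure K) ^ Om u1 =
      (-1) ^ n * (((-1) ^ (n * (n - 1) / 2)) ^ hq K) * J u1 (derivative u1) := by
    have : J u1 (derivative u1) =
        ((-1) ^ (n * (n - 1) / 2)) ^ hq K * (-1) ^ (n + Om u1) := pel
    rw [this, pow_add]
    calc (-1 : AlgebraicClosure K) ^ Om u1
        = (((-1 : AlgebraicClosure K) ^ n * (-1) ^ n)) *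
          ((((-1 : AlgebraicClosure K) ^ (n * (n - 1) / 2)) ^ hq K) *
            (((-1) ^ (n * (n - 1) / 2)) ^ hq K)) * (-1) ^ Om u1 := by
          rw [hsgn, hsgn2]; ring
      _ = _ := by ring
  rw [pel2, j0, r4, s3, jB, s6, jf, s1, s2, s4, s5]
  ring

end

end Pool.Agent.W452.LF
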